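import Pool.Agent.H94.LP2.H51.TB.UPair
import Pool.Agent.H94.LP2.M38

/-!
# Project TB: final theorems
-/

namespace Pool.Agent.H51.TB

open Finset MvPolynomial Pool.Agent.H18.Fat Pool.Agent.H18.Ex Pool.Agent.H21.NX

/-- Pair sums at most `d + 1`. -/
theorem fixed_one (d : ℕ) (η : ℝ) (hη : 0 < η) : ∃ r₀ K : ℕ, ∀ r : ℕ, r₀ ≤ r → ∀ (k : ℕ)
    (m : Fin k → ℕ), (∀ i, 1 ≤ m i) → (∀ i j, i ≠ j → m i + m j ≤ d + 1) →
    (((∑ i ∈ univ.filter (fun i => 2 * m i = d + 1), ell r (m i) : ℕ) : ℝ) ≤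
      (1 - η) * ((d + r).choose r : ℝ) ∨
      ∃ μ, 1 ≤ μ ∧ 4 * μ ≤ d + 1 ∧ K * r ^ (d - μ) ≤ (univ.filter fun i => m i = μ).card) →
    ForGeneralPoints r k fun p => ImposesMaximalConditions r d p m := by
  obtain ⟨r₁, h₁⟩ := pairs_all d (min η 1) (lt_min hη one_pos)
  obtain ⟨K, r₂, h₂⟩ := exact_many d
  refine ⟨r₁ + r₂, K, fun r hr k m hm hp hcase => ?_⟩
  have hN : (0 : ℝ) ≤ ((d + r).choose r : ℝ) := Nat.cast_nonneg _
  rcases hcase with h | ⟨μ, hμ1, hμ4, hμ⟩
  · refine h₁ r (by omega) k m hm hp (h.trans ?_)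
    have : min η 1 ≤ η := min_le_left _ _
    nlinarith
  · by_cases hbig : ∃ i, d + 2 ≤ 2 * m i
    · obtain ⟨i₀, hi₀⟩ := hbig
      refine h₁ r (by omega) k m hm hp ?_
      have hempty : (univ.filter fun i => 2 * m i = d + 1) = ∅ := by
        rw [filter_eq_empty_iff]
        intro i _ hi
        by_cases hii : i = i₀
        · subst hii
          omega
        · have := hp i i₀ hii
          omega
      rw [hempty, sum_empty, Nat.cast_zero]
      have : min η 1 ≤ 1 := min_le_right _ _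
      nlinarith
    · push Not at hbig
      refine h₂ r (by omega) μ ((d + 1) / 2) hμ1 (by omega) (by omega) (by omega) k m
        (fun i => by have := hbig i; omega) hμ

/-- Pair sums at least `d + 2`. -/
theorem fixed_two (r d k : ℕ) (hr : 1 ≤ r) (m : Fin k → ℕ) (hm : ∀ i, 1 ≤ m i)
    (hp : ∃ i j, i ≠ j ∧ d + 2 ≤ m i + m j) :
    ForGeneralPoints r k fun p => (¬ ImposesMaximalConditions r d p m ↔
      0 < Module.finrank ℂ (fatForms r d p m)) := by
  refine (ForGeneralPoints.coord_ne_zero r k).mono fun p hp0 => ?_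
  have hge := finrank_fatForms_ge (d := d) hr (fun i => hp0 i 0) m
  constructor
  · intro h
    by_contra h0
    have h1 : Module.finrank ℂ (fatForms r d p m) = 0 := by omega
    apply h
    unfold ImposesMaximalConditions
    rw [h1] at hge ⊢
    omega
  · intro h
    by_cases hbig : ∃ i, d < m i
    · obtain ⟨i, hi⟩ := hbig
      have := Pool.Agent.H21.HD.MainX.big_mult p m i hi
      omega
    · push Not at hbig
      obtain ⟨i, j, hij, hd⟩ := hp
      exact Pool.Agent.H21.HD.not_maximal_of_pair hr d p (fun i => hp0 i 0) m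
        (fun i => ⟨hm i, hbig i⟩) i j hij hd h

end Pool.Agent.H51.TB
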