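import Pool.Agent.H94.LP2.M06
import Pool.Agent.H94.LP2.M07

/-!
# Module B3 (TB): the span property of the system of a level

Proof (compare `Pool/Agent/H21/NX/GL.lean`).  Let `φ ≠ 0` be a functional on `E → ℂ`,
`E = {α // α ∈ Bx a b d j}`, and `G ≠ 0` a polynomial such that `V m p ≤ ker φ` if `G(p) ≠ 0`.  Take
`p₀` with `G(p₀) ≠ 0` and `f ∈ V m p₀`; we show `f = 0` (then `gd_le` gives `gd m = 0`).  Let
`F = ∑_α f_α z^α` (a polynomial in the variables `Z a b`).  For matrices `A` (size `a`) and `B` (size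
`b`) let `F_{A,B}(x, y) = F(A x, B y)`; its coefficients (on the level `j`) are polynomials in the
entries of `A`, `B`.  At `p_i = (adj(A) x_i, adj(B) y_i)`, where `p₀ i = (x_i, y_i)`, we have
`(A, B) p_i = (det A x_i, det B y_i)`, and the coefficients of `F_{A,B}` lie in `V m p` if
`det A ≠ 0`, `det B ≠ 0`: the vanishing of all derivatives of one bidegree `g` is preserved by
`(A, B)` (chain rule: the part of bidegree `g` of `F_{A,B}(p + z)` is obtained from the part of
bidegree `g` of `F((A,B)p + w)` by `w = (A, B) z`), and for `F` of bidegree `(d - j, j)` the derivatives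
at `(λ x, μ y)` and at `(x, y)` differ by powers of `λ`, `μ`.  Hence
`φ(F_{A,B}) * det A * det B * G(p) = 0` for all `A`, `B`, and the last three factors are not the
zero polynomial (value `G(p₀)` at `A = 1`, `B = 1`), so `φ(F_{A,B}) = 0` for all `A`, `B`.  For
`A i k = c i * v k`, `B i k = e i * w k` one has
`F_{A,B} = F(c, e) * (∑ v_k x_k)^(d-j) * (∑ w_k y_k)^j`.  If `f ≠ 0` there is `(c, e)` with
`F(c, e) ≠ 0`, so `φ` vanishes on `(∑ v_k x_k)^(d-j) (∑ w_k y_k)^j` for all `v`, `w`; its value is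
`∑_α (multinomial coefficients) v^{α_x} w^{α_y} φ(e_α)`, a polynomial in `(v, w)` vanishing
identically, so `φ(e_α) = 0` for all `α`, a contradiction.
-/

namespace Pool.Agent.H51.TB

open Finset MvPolynomial Pool.Agent.H18.Ex Pool.Agent.H21.NX Pool.Agent.H18.Ta

/-- The weights of the variables. -/
private def LSpan_w (a b : ℕ) : Z a b → ℕ × ℕ := Sum.elim (fun _ => (1, 0)) fun _ => (0, 1)

private lemma LSpan_weight {a b : ℕ} (α : Z a b →₀ ℕ) :
    Finsupp.weight (LSpan_w a b) α = (xd α, yd α) := by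
  rw [Finsupp.weight_apply, Finsupp.sum_fintype _ _ (by intro i; simp),
    Fintype.sum_sum_type]
  unfold xd yd LSpan_w
  ext <;> simp [Prod.fst_sum, Prod.snd_sum]

/-- The finitely supported function of a function. -/
private noncomputable def LSpan_sf {a b : ℕ} (α : Z a b → ℕ) : Z a b →₀ ℕ :=
  Finsupp.equivFunOnFinite.symm α

private lemma LSpan_sf_coe {a b : ℕ} (α : Z a b → ℕ) : ⇑(LSpan_sf α) = α := rfl

private lemma LSpan_sf_eta {a b : ℕ} (α : Z a b →₀ ℕ) : LSpan_sf ⇑α = α := by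
  ext i
  rfl

private lemma LSpan_sf_inj {a b : ℕ} {α β : Z a b → ℕ} : LSpan_sf α = LSpan_sf β ↔ α = β :=
  Finsupp.equivFunOnFinite.symm.injective.eq_iff

/-- The Taylor coefficients of a monomial. -/
private lemma LSpan_shift_monomial {a b : ℕ} (q : Z a b → ℂ) (α β : Z a b → ℕ) (c : ℂ) :
    coeff (LSpan_sf β) (aeval (fun i => X i + C (q i)) (monomial (LSpan_sf α) c) :
      MvPolynomial (Z a b) ℂ) = c * tcr q α β := by
  classical
  rw [aeval_monomial, algebraMap_eq, coeff_C_mul, Finsupp.prod_fintype _ _ (by intro i; simp)]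
  congr 1
  have h1 : ∀ j : Z a b, (X j + C (q j) : MvPolynomial (Z a b) ℂ) ^ (LSpan_sf α j) =
      ∑ b ∈ range (α j + 1), monomial (Finsupp.single j b)
        (((α j).choose b : ℂ) * q j ^ (α j - b)) := by
    intro j
    rw [LSpan_sf_coe, add_pow]
    refine sum_congr rfl fun b _ => ?_
    rw [X_pow_eq_monomial, ← C_pow, mul_assoc, mul_comm (C (q j ^ (α j - b)))]
    rw [← C_eq_coe_nat, ← C_mul, mul_comm, C_mul_monomial, mul_one]
  simp_rw [h1]
  rw [prod_univ_sum, coeff_sum]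
  have h2 : ∀ x ∈ Fintype.piFinset fun j => range (α j + 1),
      coeff (LSpan_sf β) (∏ j, monomial (Finsupp.single j (x j))
        (((α j).choose (x j) : ℂ) * q j ^ (α j - x j)) : MvPolynomial (Z a b) ℂ) =
      if x = β then tcr q α β else 0 := by
    intro x _
    rw [← monomial_sum_prod, coeff_monomial]
    have h4 : (∑ j, Finsupp.single j (x j)) = LSpan_sf x := by
      unfold LSpan_sf
      rw [Finsupp.equivFunOnFinite_symm_eq_sum]
    rw [h4]
    by_cases hx : x = β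
    · subst hx
      simp [tcr]
    · rw [if_neg, if_neg hx]
      intro h5
      exact hx (LSpan_sf_inj.1 h5)
  rw [sum_congr rfl h2, sum_ite_eq']
  split_ifs with h
  · rfl
  · rw [Fintype.mem_piFinset] at h
    push Not at h
    obtain ⟨j, hj⟩ := h
    rw [mem_range] at hj
    symm
    unfold tcr
    apply prod_eq_zero (mem_univ j)
    rw [Nat.choose_eq_zero_of_lt (by omega)]
    simp

/-- The polynomial of a coefficient vector. -/
private noncomputable def LSpan_P {a b d j : ℕ} (f : {α // α ∈ Bx a b d j} → ℂ) :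
    MvPolynomial (Z a b) ℂ := ∑ α : {α // α ∈ Bx a b d j}, monomial (LSpan_sf α.1) (f α)

private lemma LSpan_coeff_P {a b d j : ℕ} (f : {α // α ∈ Bx a b d j} → ℂ)
    (α : {α // α ∈ Bx a b d j}) : coeff (LSpan_sf α.1) (LSpan_P f) = f α := by
  classical
  unfold LSpan_P
  rw [coeff_sum]
  simp only [coeff_monomial, LSpan_sf_inj, Subtype.coe_inj]
  simp

private lemma LSpan_coeff_P_zero {a b d j : ℕ} (f : {α // α ∈ Bx a b d j} → ℂ)
    (α : Z a b → ℕ) (hα : α ∉ Bx a b d j) : coeff (LSpan_sf α) (LSpan_P f) = 0 := by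
  classical
  unfold LSpan_P
  rw [coeff_sum]
  refine sum_eq_zero fun β _ => ?_
  rw [coeff_monomial, if_neg]
  intro h
  rw [LSpan_sf_inj] at h
  exact hα (h ▸ β.2)

private lemma LSpan_shift_P {a b d j : ℕ} (q : Z a b → ℂ) (f : {α // α ∈ Bx a b d j} → ℂ)
    (β : Z a b → ℕ) :
    coeff (LSpan_sf β) (aeval (fun i => X i + C (q i)) (LSpan_P f) : MvPolynomial (Z a b) ℂ) =
      ∑ α : {α // α ∈ Bx a b d j}, tcr q α.1 β * f α := by
  unfold LSpan_P
  rw [map_sum, coeff_sum]
  refine sum_congr rfl fun α _ => ?_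
  rw [LSpan_shift_monomial, mul_comm]

/-- Substitutions respecting the weights. -/
private lemma LSpan_mono_hom {a b : ℕ} {g : Z a b → MvPolynomial (Z a b) ℂ}
    (hg : ∀ i, IsWeightedHomogeneous (LSpan_w a b) (g i) (LSpan_w a b i)) (α : Z a b →₀ ℕ)
    (c : ℂ) : IsWeightedHomogeneous (LSpan_w a b) (aeval g (monomial α c)) (xd α, yd α) := by
  rw [aeval_monomial, algebraMap_eq, Finsupp.prod_fintype _ _ (by intro i; simp)]
  have h1 : IsWeightedHomogeneous (LSpan_w a b) (∏ i, g i ^ α i) (xd α, yd α) := by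
    rw [← LSpan_weight, Finsupp.weight_apply, Finsupp.sum_fintype _ _ (by intro i; simp)]
    exact IsWeightedHomogeneous.prod _ _ _ fun i _ => (hg i).pow (α i)
  exact h1.C_mul c

private lemma LSpan_pres {a b : ℕ} {g : Z a b → MvPolynomial (Z a b) ℂ}
    (hg : ∀ i, IsWeightedHomogeneous (LSpan_w a b) (g i) (LSpan_w a b i)) (n : ℕ × ℕ)
    {H : MvPolynomial (Z a b) ℂ} (hH : ∀ β : Z a b →₀ ℕ, (xd β, yd β) = n → coeff β H = 0)
    (β : Z a b →₀ ℕ) (hβ : (xd β, yd β) = n) : coeff β (aeval g H) = 0 := by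
  classical
  rw [H.as_sum, map_sum, coeff_sum]
  refine sum_eq_zero fun α hα => ?_
  by_cases h : (xd α, yd α) = n
  · exact absurd (hH α h) (mem_support_iff.1 hα)
  · refine (LSpan_mono_hom hg α _).coeff_eq_zero β ?_
    rw [LSpan_weight, hβ]
    exact Ne.symm h

/-- The block substitution. -/
private noncomputable def LSpan_g {a b : ℕ} (A : Matrix (Fin a) (Fin a) ℂ)
    (B : Matrix (Fin b) (Fin b) ℂ) : Z a b → MvPolynomial (Z a b) ℂ :=
  Sum.elim (fun i => ∑ k, C (A i k) * X (Sum.inl k)) fun i => ∑ k, C (B i k) * X (Sum.inr k)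

private lemma LSpan_g_hom {a b : ℕ} (A : Matrix (Fin a) (Fin a) ℂ)
    (B : Matrix (Fin b) (Fin b) ℂ) (i : Z a b) :
    IsWeightedHomogeneous (LSpan_w a b) (LSpan_g A B i) (LSpan_w a b i) := by
  rcases i with i | i
  · show IsWeightedHomogeneous (LSpan_w a b) (∑ k, C (A i k) * X (Sum.inl k)) (1, 0)
    exact IsWeightedHomogeneous.sum _ _ _ fun k _ =>
      (isWeightedHomogeneous_X ℂ (LSpan_w a b) (Sum.inl k)).C_mul _
  · show IsWeightedHomogeneous (LSpan_w a b) (∑ k, C (B i k) * X (Sum.inr k)) (0, 1)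
    exact IsWeightedHomogeneous.sum _ _ _ fun k _ =>
      (isWeightedHomogeneous_X ℂ (LSpan_w a b) (Sum.inr k)).C_mul _

/-- The point `(A x, B y)`. -/
private def LSpan_mv {a b : ℕ} (A : Matrix (Fin a) (Fin a) ℂ)
    (B : Matrix (Fin b) (Fin b) ℂ) (q : Z a b → ℂ) : Z a b → ℂ :=
  Sum.elim (A.mulVec fun k => q (Sum.inl k)) (B.mulVec fun k => q (Sum.inr k))

private lemma LSpan_shift_comm {a b : ℕ} (A : Matrix (Fin a) (Fin a) ℂ)
    (B : Matrix (Fin b) (Fin b) ℂ) (q : Z a b → ℂ) (F : MvPolynomial (Z a b) ℂ) :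
    aeval (fun i => X i + C (q i)) (aeval (LSpan_g A B) F) =
      aeval (LSpan_g A B) (aeval (fun i => X i + C (LSpan_mv A B q i)) F) := by
  have h : (aeval (fun j => X j + C (q j)) :
      MvPolynomial (Z a b) ℂ →ₐ[ℂ] MvPolynomial (Z a b) ℂ).comp (aeval (LSpan_g A B)) =
      (aeval (LSpan_g A B)).comp (aeval (fun j => X j + C (LSpan_mv A B q j))) := by
    apply algHom_ext
    rintro (i | i)
    · simp only [LSpan_g, LSpan_mv, AlgHom.comp_apply, aeval_X, map_sum, map_mul, aeval_C,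
        algebraMap_eq, map_add, mul_add, sum_add_distrib, Matrix.mulVec, dotProduct, Sum.elim_inl]
    · simp only [LSpan_g, LSpan_mv, AlgHom.comp_apply, aeval_X, map_sum, map_mul, aeval_C,
        algebraMap_eq, map_add, mul_add, sum_add_distrib, Matrix.mulVec, dotProduct, Sum.elim_inr]
  exact DFunLike.congr_fun h F

/-- Scalar multiples of the two blocks. -/
private lemma LSpan_tcr_smul {a b : ℕ} (l m : ℂ) (x : Fin a → ℂ) (y : Fin b → ℂ)
    (α β : Z a b → ℕ) :
    tcr (Sum.elim (fun k => l * x k) fun k => m * y k : Z a b → ℂ) α β =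
      l ^ (xd α - xd β) * m ^ (yd α - yd β) * tcr (Sum.elim x y : Z a b → ℂ) α β := by
  by_cases h : ∀ i, β i ≤ α i
  · unfold tcr
    rw [Fintype.prod_sum_type, Fintype.prod_sum_type]
    simp only [Sum.elim_inl, Sum.elim_inr, mul_pow]
    have e1 : ∑ i, (α (Sum.inl i) - β (Sum.inl i)) = xd α - xd β := by
      unfold xd
      rw [Finset.sum_tsub_distrib _ fun i _ => h _]
    have e2 : ∑ i, (α (Sum.inr i) - β (Sum.inr i)) = yd α - yd β := by
      unfold yd
      rw [Finset.sum_tsub_distrib _ fun i _ => h _]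
    rw [← e1, ← e2, ← prod_pow_eq_pow_sum, ← prod_pow_eq_pow_sum]
    simp only [prod_mul_distrib]
    ring
  · push Not at h
    obtain ⟨i, hi⟩ := h
    have h0 : ∀ q : Z a b → ℂ, tcr q α β = 0 := by
      intro q
      unfold tcr
      apply prod_eq_zero (mem_univ i)
      rw [Nat.choose_eq_zero_of_lt hi]
      simp
    rw [h0, h0, mul_zero]

/-- The coefficients of the transformed polynomial. -/
private noncomputable def LSpan_T {a b d j : ℕ} (A : Matrix (Fin a) (Fin a) ℂ)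
    (B : Matrix (Fin b) (Fin b) ℂ) (f : {α // α ∈ Bx a b d j} → ℂ) :
    {α // α ∈ Bx a b d j} → ℂ :=
  fun α => coeff (LSpan_sf α.1) (aeval (LSpan_g A B) (LSpan_P f))

private lemma LSpan_P_T {a b d j : ℕ} (A : Matrix (Fin a) (Fin a) ℂ)
    (B : Matrix (Fin b) (Fin b) ℂ) (f : {α // α ∈ Bx a b d j} → ℂ) :
    LSpan_P (LSpan_T A B f) = aeval (LSpan_g A B) (LSpan_P f) := by
  classical
  ext γ
  rw [← LSpan_sf_eta γ]
  by_cases hγ : ⇑γ ∈ Bx a b d j
  · exact LSpan_coeff_P (LSpan_T A B f) ⟨⇑γ, hγ⟩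
  · rw [LSpan_coeff_P_zero _ _ hγ]
    symm
    unfold LSpan_P
    rw [map_sum, coeff_sum]
    refine sum_eq_zero fun α _ => ?_
    refine (LSpan_mono_hom (LSpan_g_hom A B) _ _).coeff_eq_zero _ ?_
    rw [LSpan_weight, LSpan_sf_coe, LSpan_sf_coe]
    intro h
    apply hγ
    have h1 := mem_Bx.1 α.2
    rw [Prod.mk.injEq] at h
    rw [mem_Bx, h.1, h.2]
    exact h1

private lemma LSpan_mem {a b d j : ℕ} {κ : Type} (m : κ → Finset (ℕ × ℕ)) (p : κ → Z a b → ℂ)
    (f : {α // α ∈ Bx a b d j} → ℂ) (hf : f ∈ (LSys a b d j).V m p)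
    (A : Matrix (Fin a) (Fin a) ℂ) (B : Matrix (Fin b) (Fin b) ℂ) :
    LSpan_T A B f ∈ (LSys a b d j).V m fun i => LSpan_mv A.adjugate B.adjugate (p i) := by
  rw [mem_LV] at hf ⊢
  intro i β hβ
  rw [← LSpan_shift_P, LSpan_P_T, LSpan_shift_comm]
  refine LSpan_pres (LSpan_g_hom A B) (xd β, yd β) ?_ _ rfl
  intro γ hγ
  rw [← LSpan_sf_eta γ, LSpan_shift_P]
  have h1 : LSpan_mv A B (LSpan_mv A.adjugate B.adjugate (p i)) =
      Sum.elim (fun k => A.det * p i (Sum.inl k)) fun k => B.det * p i (Sum.inr k) := by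
    have e1 : A.mulVec (A.adjugate.mulVec fun k => p i (Sum.inl k)) =
        fun k => A.det * p i (Sum.inl k) := by
      rw [Matrix.mulVec_mulVec, Matrix.mul_adjugate, Matrix.smul_mulVec, Matrix.one_mulVec]
      rfl
    have e2 : B.mulVec (B.adjugate.mulVec fun k => p i (Sum.inr k)) =
        fun k => B.det * p i (Sum.inr k) := by
      rw [Matrix.mulVec_mulVec, Matrix.mul_adjugate, Matrix.smul_mulVec, Matrix.one_mulVec]
      rfl
    unfold LSpan_mv
    simp only [Sum.elim_inl, Sum.elim_inr]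
    rw [e1, e2]
  rw [h1]
  have h2 : (Sum.elim (fun k => p i (Sum.inl k)) fun k => p i (Sum.inr k) : Z a b → ℂ) = p i := by
    funext x
    rcases x with x | x <;> rfl
  have h3 : ∀ α : {α // α ∈ Bx a b d j},
      tcr (Sum.elim (fun k => A.det * p i (Sum.inl k)) fun k => B.det * p i (Sum.inr k) :
        Z a b → ℂ) α.1 ⇑γ * f α =
      A.det ^ (d - j - xd γ) * B.det ^ (j - yd γ) * (tcr (p i) α.1 ⇑γ * f α) := by
    intro α
    have h4 := mem_Bx.1 α.2
    rw [LSpan_tcr_smul, h2, show xd α.1 = d - j by omega, show yd α.1 = j by omega]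
    ring
  simp_rw [h3]
  rw [← mul_sum, hf i ⇑γ (by rw [hγ]; exact hβ), mul_zero]

/-- The parameters of the pair `(A, B)`. -/
private def LSpan_t {a b : ℕ} (A : Matrix (Fin a) (Fin a) ℂ) (B : Matrix (Fin b) (Fin b) ℂ) :
    (Fin a × Fin a) ⊕ (Fin b × Fin b) → ℂ :=
  Sum.elim (fun x => A x.1 x.2) fun x => B x.1 x.2

/-- The generic substitution. -/
private noncomputable def LSpan_gF {a b : ℕ} : MvPolynomial (Z a b) ℂ →+*
    MvPolynomial (Z a b) (MvPolynomial ((Fin a × Fin a) ⊕ (Fin b × Fin b)) ℂ) :=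
  eval₂Hom (C.comp C) (Sum.elim (fun i => ∑ k, C (X (Sum.inl (i, k))) * X (Sum.inl k))
    fun i => ∑ k, C (X (Sum.inr (i, k))) * X (Sum.inr k))

private lemma LSpan_map_gF {a b : ℕ} (A : Matrix (Fin a) (Fin a) ℂ)
    (B : Matrix (Fin b) (Fin b) ℂ) (F : MvPolynomial (Z a b) ℂ) :
    MvPolynomial.map (eval (LSpan_t A B)) (LSpan_gF F) = aeval (LSpan_g A B) F := by
  have h : (MvPolynomial.map (eval (LSpan_t A B))).comp LSpan_gF =
      (aeval (LSpan_g A B) : MvPolynomial (Z a b) ℂ →ₐ[ℂ] MvPolynomial (Z a b) ℂ).toRingHom := by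
    apply ringHom_ext
    · intro c
      simp [LSpan_gF]
    · rintro (i | i)
      · simp [LSpan_gF, LSpan_g, LSpan_t]
      · simp [LSpan_gF, LSpan_g, LSpan_t]
  exact DFunLike.congr_fun h F

private lemma LSpan_functional {a b d j : ℕ} (φ : ({α // α ∈ Bx a b d j} → ℂ) →ₗ[ℂ] ℂ)
    (f : {α // α ∈ Bx a b d j} → ℂ) :
    φ f = ∑ α, φ (Pi.single α 1) * f α := by
  classical
  rw [LinearMap.pi_apply_eq_sum_univ φ f]
  refine sum_congr rfl fun α _ => ?_
  rw [smul_eq_mul, mul_comm]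
  congr 2
  funext β
  by_cases h : α = β
  · subst h; simp
  · rw [if_neg h, Pi.single_eq_of_ne (Ne.symm h)]

private lemma LSpan_functional_poly {a b d j : ℕ} (φ : ({α // α ∈ Bx a b d j} → ℂ) →ₗ[ℂ] ℂ)
    (f : {α // α ∈ Bx a b d j} → ℂ) :
    ∃ Q : MvPolynomial ((Fin a × Fin a) ⊕ (Fin b × Fin b)) ℂ,
      ∀ (A : Matrix (Fin a) (Fin a) ℂ) (B : Matrix (Fin b) (Fin b) ℂ),
      eval (LSpan_t A B) Q = φ (LSpan_T A B f) := by
  classical
  refine ⟨∑ α : {α // α ∈ Bx a b d j},
    C (φ (Pi.single α 1)) * coeff (LSpan_sf α.1) (LSpan_gF (LSpan_P f)), fun A B => ?_⟩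
  rw [LSpan_functional, map_sum]
  refine sum_congr rfl fun α _ => ?_
  rw [map_mul, eval_C]
  unfold LSpan_T
  rw [← LSpan_map_gF, coeff_map]

private lemma LSpan_eval_aeval {σ τ : Type*} (a : τ → ℂ) (g : σ → MvPolynomial τ ℂ)
    (G : MvPolynomial σ ℂ) : eval a (aeval g G) = eval (fun x => eval a (g x)) G := by
  induction G using MvPolynomial.induction_on with
  | C c => simp
  | add p q hp hq => rw [map_add, map_add, map_add, hp, hq]
  | mul_X p i hp => rw [map_mul, map_mul, map_mul, hp, aeval_X, eval_X]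

/-- The polynomial `G(p_{A,B})`. -/
private lemma LSpan_D {a b : ℕ} {κ : Type} (G : MvPolynomial (κ × Z a b) ℂ)
    (p₀ : κ → Z a b → ℂ) :
    ∃ D : MvPolynomial ((Fin a × Fin a) ⊕ (Fin b × Fin b)) ℂ,
      ∀ (A : Matrix (Fin a) (Fin a) ℂ) (B : Matrix (Fin b) (Fin b) ℂ),
      eval (LSpan_t A B) D =
        eval (fun x : κ × Z a b => LSpan_mv A.adjugate B.adjugate (p₀ x.1) x.2) G := by
  classical
  let NA : Matrix (Fin a) (Fin a) (MvPolynomial ((Fin a × Fin a) ⊕ (Fin b × Fin b)) ℂ) :=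
    Matrix.of fun i k => X (Sum.inl (i, k))
  let NB : Matrix (Fin b) (Fin b) (MvPolynomial ((Fin a × Fin a) ⊕ (Fin b × Fin b)) ℂ) :=
    Matrix.of fun i k => X (Sum.inr (i, k))
  have hNA : ∀ (A : Matrix (Fin a) (Fin a) ℂ) (B : Matrix (Fin b) (Fin b) ℂ),
      (eval (LSpan_t A B)).mapMatrix NA = A := by
    intro A B
    ext i k
    simp [NA, LSpan_t]
  have hNB : ∀ (A : Matrix (Fin a) (Fin a) ℂ) (B : Matrix (Fin b) (Fin b) ℂ),
      (eval (LSpan_t A B)).mapMatrix NB = B := by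
    intro A B
    ext i k
    simp [NB, LSpan_t]
  refine ⟨aeval (fun x : κ × Z a b => Sum.elim
    (fun i => ∑ k, NA.adjugate i k * C (p₀ x.1 (Sum.inl k)))
    (fun i => ∑ k, NB.adjugate i k * C (p₀ x.1 (Sum.inr k))) x.2) G, fun A B => ?_⟩
  rw [LSpan_eval_aeval]
  have h1 : ∀ i k, eval (LSpan_t A B) (NA.adjugate i k) = A.adjugate i k := by
    intro i k
    have h3 := RingHom.map_adjugate (eval (LSpan_t A B)) NA
    rw [hNA] at h3
    have h4 := congrFun (congrFun h3 i) k
    simpa using h4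
  have h2 : ∀ i k, eval (LSpan_t A B) (NB.adjugate i k) = B.adjugate i k := by
    intro i k
    have h3 := RingHom.map_adjugate (eval (LSpan_t A B)) NB
    rw [hNB] at h3
    have h4 := congrFun (congrFun h3 i) k
    simpa using h4
  have h3 : (fun x : κ × Z a b => eval (LSpan_t A B) (Sum.elim
      (fun i => ∑ k, NA.adjugate i k * C (p₀ x.1 (Sum.inl k)))
      (fun i => ∑ k, NB.adjugate i k * C (p₀ x.1 (Sum.inr k))) x.2)) =
      fun x : κ × Z a b => LSpan_mv A.adjugate B.adjugate (p₀ x.1) x.2 := by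
    funext x
    obtain ⟨x, i | i⟩ := x
    · simp only [Sum.elim_inl, map_sum, map_mul, h1, eval_C]
      rfl
    · simp only [Sum.elim_inr, map_sum, map_mul, h2, eval_C]
      rfl
  rw [h3]

/-- Step 1: `φ` vanishes on all transformed solutions. -/
private lemma LSpan_all {a b d j : ℕ} {κ : Type} (m : κ → Finset (ℕ × ℕ))
    (φ : ({α // α ∈ Bx a b d j} → ℂ) →ₗ[ℂ] ℂ) (G : MvPolynomial (κ × Z a b) ℂ)
    (hG : ∀ p : κ → Z a b → ℂ, eval (fun x => p x.1 x.2) G ≠ 0 →
      (LSys a b d j).V m p ≤ LinearMap.ker φ)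
    (p₀ : κ → Z a b → ℂ) (hp₀ : eval (fun x => p₀ x.1 x.2) G ≠ 0)
    (f : {α // α ∈ Bx a b d j} → ℂ) (hf : f ∈ (LSys a b d j).V m p₀)
    (A : Matrix (Fin a) (Fin a) ℂ) (B : Matrix (Fin b) (Fin b) ℂ) :
    φ (LSpan_T A B f) = 0 := by
  classical
  obtain ⟨Q, hQ⟩ := LSpan_functional_poly φ f
  obtain ⟨D, hD⟩ := LSpan_D G p₀
  have hQD : Q * D = 0 := by
    apply MvPolynomial.funext
    intro t
    let A : Matrix (Fin a) (Fin a) ℂ := Matrix.of fun i k => t (Sum.inl (i, k))
    let B : Matrix (Fin b) (Fin b) ℂ := Matrix.of fun i k => t (Sum.inr (i, k))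
    have ht : t = LSpan_t A B := by
      funext x
      rcases x with x | x <;> rfl
    rw [map_mul, map_zero, ht, hQ, hD]
    by_cases hGA : eval (fun x : κ × Z a b => LSpan_mv A.adjugate B.adjugate (p₀ x.1) x.2) G = 0
    · rw [hGA, mul_zero]
    have h1 : φ (LSpan_T A B f) = 0 :=
      hG (fun i => LSpan_mv A.adjugate B.adjugate (p₀ i)) hGA (LSpan_mem m p₀ f hf A B)
    rw [h1, zero_mul]
  have hD0 : D ≠ 0 := by
    intro h0
    have h1 := hD 1 1
    rw [h0, map_zero] at h1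
    apply hp₀
    rw [h1]
    have h2 : (fun x : κ × Z a b => p₀ x.1 x.2) = fun x : κ × Z a b =>
        LSpan_mv (1 : Matrix (Fin a) (Fin a) ℂ).adjugate (1 : Matrix (Fin b) (Fin b) ℂ).adjugate
          (p₀ x.1) x.2 := by
      funext x
      rw [Matrix.adjugate_one, Matrix.adjugate_one]
      unfold LSpan_mv
      rw [Matrix.one_mulVec, Matrix.one_mulVec]
      obtain ⟨x, i | i⟩ := x <;> rfl
    rw [h2]
  have hQ0 : Q = 0 := (mul_eq_zero.1 hQD).resolve_right hD0
  rw [← hQ, hQ0, map_zero]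

/-- Step 2: rank one matrices. -/
private lemma LSpan_rank_one {a b d j : ℕ} (hj : j ≤ d) (f : {α // α ∈ Bx a b d j} → ℂ)
    (c v : Z a b → ℂ) :
    aeval (LSpan_g (Matrix.of fun i k => c (Sum.inl i) * v (Sum.inl k))
      (Matrix.of fun i k => c (Sum.inr i) * v (Sum.inr k))) (LSpan_P f) =
      C (eval c (LSpan_P f)) * ((∑ k, C (v (Sum.inl k)) * X (Sum.inl k)) ^ (d - j) *
        (∑ k, C (v (Sum.inr k)) * X (Sum.inr k)) ^ j) := by
  classical
  unfold LSpan_P
  rw [map_sum, map_sum, map_sum, sum_mul]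
  refine sum_congr rfl fun α _ => ?_
  have h4 := mem_Bx.1 α.2
  have e1 : ∑ i, α.1 (Sum.inl i) = d - j := by
    have : xd α.1 = d - j := by omega
    exact this
  have e2 : ∑ i, α.1 (Sum.inr i) = j := h4.2
  rw [aeval_monomial, algebraMap_eq, eval_monomial, Finsupp.prod_fintype _ _ (by intro i; simp),
    Finsupp.prod_fintype _ _ (by intro i; simp), Fintype.prod_sum_type, Fintype.prod_sum_type,
    LSpan_sf_coe]
  have h5 : ∀ i : Fin a, LSpan_g (Matrix.of fun i k => c (Sum.inl i) * v (Sum.inl k))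
      (Matrix.of fun i k => c (Sum.inr i) * v (Sum.inr k)) (Sum.inl i) =
      C (c (Sum.inl i)) * ∑ k, C (v (Sum.inl k)) * X (Sum.inl k) := by
    intro i
    simp only [LSpan_g, Sum.elim_inl, Matrix.of_apply, mul_sum, C_mul, mul_assoc]
  have h6 : ∀ i : Fin b, LSpan_g (Matrix.of fun i k => c (Sum.inl i) * v (Sum.inl k))
      (Matrix.of fun i k => c (Sum.inr i) * v (Sum.inr k)) (Sum.inr i) =
      C (c (Sum.inr i)) * ∑ k, C (v (Sum.inr k)) * X (Sum.inr k) := by
    intro i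
    simp only [LSpan_g, Sum.elim_inr, Matrix.of_apply, mul_sum, C_mul, mul_assoc]
  simp_rw [h5, h6, mul_pow]
  rw [prod_mul_distrib, prod_mul_distrib, prod_pow_eq_pow_sum, prod_pow_eq_pow_sum, e1, e2]
  simp only [C_mul, map_prod, C_pow]
  ring

/-- The coefficients of the products of powers of two linear forms. -/
private lemma LSpan_coeff_pow {a b d j : ℕ} (hj : j ≤ d) (v : Z a b → ℂ)
    (α : {α // α ∈ Bx a b d j}) :
    coeff (LSpan_sf α.1) ((∑ k, C (v (Sum.inl k)) * X (Sum.inl k)) ^ (d - j) *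
        (∑ k, C (v (Sum.inr k)) * X (Sum.inr k)) ^ j : MvPolynomial (Z a b) ℂ) =
      ((Nat.multinomial univ (fun i => α.1 (Sum.inl i)) *
        Nat.multinomial univ (fun i => α.1 (Sum.inr i)) : ℕ) : ℂ) * ∏ i, v i ^ α.1 i := by
  classical
  rw [sum_pow_eq_sum_piAntidiag, sum_pow_eq_sum_piAntidiag, sum_mul_sum, coeff_sum]
  have h1 : ∀ (k : Fin a → ℕ) (l : Fin b → ℕ),
      ((Nat.multinomial univ k : MvPolynomial (Z a b) ℂ) *
        ∏ i, (C (v (Sum.inl i)) * X (Sum.inl i)) ^ k i) *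
      ((Nat.multinomial univ l : MvPolynomial (Z a b) ℂ) *
        ∏ i, (C (v (Sum.inr i)) * X (Sum.inr i)) ^ l i) =
      monomial (LSpan_sf (Sum.elim k l)) (((Nat.multinomial univ k * Nat.multinomial univ l : ℕ) : ℂ)
        * ((∏ i, v (Sum.inl i) ^ k i) * ∏ i, v (Sum.inr i) ^ l i)) := by
    intro k l
    rw [monomial_eq, Finsupp.prod_fintype _ _ (by intro i; simp), Fintype.prod_sum_type,
      LSpan_sf_coe]
    simp only [Sum.elim_inl, Sum.elim_inr, mul_pow, prod_mul_distrib, C_mul, map_prod, C_pow,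
      Nat.cast_mul, ← C_eq_coe_nat]
    ring
  have e1 : ∑ i, α.1 (Sum.inl i) = d - j := by
    have h4 := mem_Bx.1 α.2
    have : xd α.1 = d - j := by omega
    exact this
  have e2 : ∑ i, α.1 (Sum.inr i) = j := (mem_Bx.1 α.2).2
  have h2 : ∀ k ∈ piAntidiag (univ : Finset (Fin a)) (d - j),
      coeff (LSpan_sf α.1) (∑ l ∈ piAntidiag (univ : Finset (Fin b)) j,
      ((Nat.multinomial univ k : MvPolynomial (Z a b) ℂ) *
        ∏ i, (C (v (Sum.inl i)) * X (Sum.inl i)) ^ k i) *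
      ((Nat.multinomial univ l : MvPolynomial (Z a b) ℂ) *
        ∏ i, (C (v (Sum.inr i)) * X (Sum.inr i)) ^ l i)) =
      if k = (fun i => α.1 (Sum.inl i)) then
        (((Nat.multinomial univ (fun i => α.1 (Sum.inl i)) *
        Nat.multinomial univ (fun i => α.1 (Sum.inr i)) : ℕ) : ℂ) * ∏ i, v i ^ α.1 i) else 0 := by
    intro k _
    rw [coeff_sum]
    have h3 : ∀ l ∈ piAntidiag (univ : Finset (Fin b)) j, coeff (LSpan_sf α.1)
      (((Nat.multinomial univ k : MvPolynomial (Z a b) ℂ) *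
        ∏ i, (C (v (Sum.inl i)) * X (Sum.inl i)) ^ k i) *
      ((Nat.multinomial univ l : MvPolynomial (Z a b) ℂ) *
        ∏ i, (C (v (Sum.inr i)) * X (Sum.inr i)) ^ l i)) =
        if l = (fun i => α.1 (Sum.inr i)) then (if k = (fun i => α.1 (Sum.inl i)) then
        (((Nat.multinomial univ (fun i => α.1 (Sum.inl i)) *
        Nat.multinomial univ (fun i => α.1 (Sum.inr i)) : ℕ) : ℂ) * ∏ i, v i ^ α.1 i) else 0)
        else 0 := by
      intro l _
      rw [h1, coeff_monomial]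
      by_cases hk : k = (fun i => α.1 (Sum.inl i))
      · by_cases hl : l = (fun i => α.1 (Sum.inr i))
        · have h5 : LSpan_sf (Sum.elim k l) = LSpan_sf α.1 := by
            rw [LSpan_sf_inj, hk, hl]
            funext x
            rcases x with x | x <;> rfl
          rw [if_pos hk, if_pos hl, if_pos h5, Fintype.prod_sum_type, hk, hl]
        · rw [if_neg hl, if_neg]
          intro h
          apply hl
          rw [LSpan_sf_inj] at h
          funext x
          exact congrFun h (Sum.inr x)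
      · rw [if_neg hk, ite_self, if_neg]
        intro h
        apply hk
        rw [LSpan_sf_inj] at h
        funext x
        exact congrFun h (Sum.inl x)
    rw [sum_congr rfl h3, sum_ite_eq' , if_pos]
    rw [mem_piAntidiag]
    exact ⟨e2, fun i _ => mem_univ i⟩
  rw [sum_congr rfl h2, sum_ite_eq', if_pos]
  rw [mem_piAntidiag]
  exact ⟨e1, fun i _ => mem_univ i⟩

theorem span_L {a b d j : ℕ} (ha : 1 ≤ a) (hb : 1 ≤ b) (hj : j ≤ d) : (LSys a b d j).Span := by
  classical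
  intro κ _ m φ hφ hgn
  obtain ⟨G, hG0, hG⟩ := hgn
  obtain ⟨t, ht⟩ : ∃ t, eval t G ≠ 0 := by
    by_contra hcon
    push Not at hcon
    exact hG0 (MvPolynomial.funext fun t => by rw [hcon t, map_zero])
  let p₀ : κ → Z a b → ℂ := fun i k => t (i, k)
  have hp₀ : eval (fun x : κ × Z a b => p₀ x.1 x.2) G ≠ 0 := ht
  have hbot : (LSys a b d j).V m p₀ = ⊥ := by
    rw [Submodule.eq_bot_iff]
    intro f hf
    by_contra hf0
    obtain ⟨c, hc⟩ : ∃ c, eval c (LSpan_P f) ≠ 0 := by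
      by_contra hcon
      push Not at hcon
      have h0 : LSpan_P f = 0 := MvPolynomial.funext fun a => by rw [hcon a, map_zero]
      apply hf0
      funext α
      rw [← LSpan_coeff_P f α, h0, coeff_zero]
      rfl
    have h1 : ∀ v : Z a b → ℂ, ∑ α : {α // α ∈ Bx a b d j}, φ (Pi.single α 1) *
        (((Nat.multinomial univ (fun i => α.1 (Sum.inl i)) *
        Nat.multinomial univ (fun i => α.1 (Sum.inr i)) : ℕ) : ℂ) * ∏ i, v i ^ α.1 i) = 0 := by
      intro v
      have h2 := LSpan_all m φ G hG p₀ hp₀ f hf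
        (Matrix.of fun i k => c (Sum.inl i) * v (Sum.inl k))
        (Matrix.of fun i k => c (Sum.inr i) * v (Sum.inr k))
      rw [LSpan_functional] at h2
      have h3 : ∀ α : {α // α ∈ Bx a b d j}, φ (Pi.single α 1) *
          LSpan_T (Matrix.of fun i k => c (Sum.inl i) * v (Sum.inl k))
            (Matrix.of fun i k => c (Sum.inr i) * v (Sum.inr k)) f α =
          eval c (LSpan_P f) * (φ (Pi.single α 1) *
          (((Nat.multinomial univ (fun i => α.1 (Sum.inl i)) *
          Nat.multinomial univ (fun i => α.1 (Sum.inr i)) : ℕ) : ℂ) * ∏ i, v i ^ α.1 i)) := by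
        intro α
        unfold LSpan_T
        rw [LSpan_rank_one hj, coeff_C_mul, LSpan_coeff_pow hj]
        ring
      simp_rw [h3] at h2
      rw [← mul_sum] at h2
      exact (mul_eq_zero.1 h2).resolve_left hc
    have h4 : LSpan_P (fun α : {α // α ∈ Bx a b d j} => φ (Pi.single α 1) *
        ((Nat.multinomial univ (fun i => α.1 (Sum.inl i)) *
        Nat.multinomial univ (fun i => α.1 (Sum.inr i)) : ℕ) : ℂ)) = 0 := by
      apply MvPolynomial.funext
      intro v
      rw [map_zero, ← h1 v]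
      unfold LSpan_P
      rw [map_sum]
      refine sum_congr rfl fun α _ => ?_
      rw [eval_monomial, Finsupp.prod_fintype _ _ (by intro i; simp), LSpan_sf_coe]
      ring
    apply hφ
    ext α
    have h5 := LSpan_coeff_P (fun α : {α // α ∈ Bx a b d j} => φ (Pi.single α 1) *
        ((Nat.multinomial univ (fun i => α.1 (Sum.inl i)) *
        Nat.multinomial univ (fun i => α.1 (Sum.inr i)) : ℕ) : ℂ)) α
    rw [h4, coeff_zero] at h5
    have h6 : ((Nat.multinomial univ (fun i => α.1 (Sum.inl i)) *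
        Nat.multinomial univ (fun i => α.1 (Sum.inr i)) : ℕ) : ℂ) ≠ 0 := by
      rw [Nat.cast_ne_zero]
      exact Nat.mul_ne_zero (Nat.multinomial_pos _ _).ne' (Nat.multinomial_pos _ _).ne'
    have h7 : φ (Pi.single α 1) = 0 := (mul_eq_zero.1 h5.symm).resolve_right h6
    simpa using h7
  have h4 := gd_le (LSys a b d j) m p₀
  rw [hbot, finrank_bot] at h4
  omega

end Pool.Agent.H51.TB
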