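import Pool.Agent.H94.LP2.M24
import Pool.Agent.H94.LP2.M32

/-!
# Module U10 (TB2): pair sums at most `d + 1`

`k = 0`: `window_fin`.  Let `m i₀ = M₀` be the largest multiplicity.
* `d ≤ M₀`: `cone`.
* `2 * M₀ ≤ d + 1`: `pairs` with `M = M₀`; the sum in `hH` there is over the `i` with
  `m i + M₀ = d + 1`, which (as `m i ≤ M₀`) are those with `2 * m i = d + 1`.
* `d + 2 ≤ 2 * M₀`, `M₀ < d`: the other multiplicities are at most `M = d + 1 - M₀`, `2 ≤ M`, `2 * M ≤ d`.
  Let `S` be the multiset of the `m i`, `i ≠ i₀`, together with `binom (d + r, r) - ∑ ell r (m i)`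
  simple points; `core_U` (with `m₀ = M₀`) and `max_of_GM`.
-/

namespace Pool.Agent.H51.TB

open Finset Pool.Agent.H18.Fat Pool.Agent.H18.Ex Pool.Agent.H21.NX

private theorem UPair_val {k : ℕ} (m : Fin k → ℕ) (i₀ : Fin k) :
    (univ : Finset (Fin k)).val.map m = m i₀ ::ₘ (univ.erase i₀).val.map m := by
  have h1 : (univ : Finset (Fin k)).val = i₀ ::ₘ (univ.erase i₀).val := by
    rw [← Finset.insert_val_of_notMem (Finset.notMem_erase i₀ _), Finset.insert_erase (mem_univ _)]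
  rw [h1, Multiset.map_cons]

theorem pairs_all (d : ℕ) (η : ℝ) (hη : 0 < η) : ∃ r₀ : ℕ, ∀ r : ℕ, r₀ ≤ r → ∀ (k : ℕ)
    (m : Fin k → ℕ), (∀ i, 1 ≤ m i) → (∀ i j, i ≠ j → m i + m j ≤ d + 1) →
    ((∑ i ∈ univ.filter (fun i => 2 * m i = d + 1), ell r (m i) : ℕ) : ℝ) ≤
      (1 - η) * ((d + r).choose r : ℝ) →
    ForGeneralPoints r k fun p => ImposesMaximalConditions r d p m := by
  obtain ⟨r1, h1⟩ := pairs d η hη
  obtain ⟨r2, h2⟩ := core_U d
  refine ⟨max r1 r2 + 1, fun r hr k m hm hp hH => ?_⟩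
  have hr1 : r1 ≤ r := (le_max_left r1 r2).trans (by omega)
  have hr2 : r2 ≤ r := (le_max_right r1 r2).trans (by omega)
  have hr0 : 1 ≤ r := by omega
  rcases Nat.eq_zero_or_pos k with rfl | hk
  · exact window_fin r d hr0 0 m (fun i => i.elim0) (fun i _ => i.elim0)
  obtain ⟨i₀, -, hi₀⟩ := Finset.exists_max_image (univ : Finset (Fin k)) m ⟨⟨0, hk⟩, mem_univ _⟩
  have hmax : ∀ i, m i ≤ m i₀ := fun i => hi₀ i (mem_univ _)
  rcases Nat.lt_or_ge (m i₀) d with hd | hd
  swap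
  · exact cone r d k hr0 m hm hp i₀ hd
  rcases Nat.lt_or_ge (d + 1) (2 * m i₀) with h3 | h3
  swap
  · refine h1 r hr1 k m hm hp (m i₀) hmax ⟨i₀, rfl⟩ fun _ => ?_
    refine le_trans ?_ hH
    have h4 : ∑ i ∈ univ.filter (fun i => m i + m i₀ = d + 1), ell r (m i) ≤
        ∑ i ∈ univ.filter (fun i => 2 * m i = d + 1), ell r (m i) := by
      refine Finset.sum_le_sum_of_subset fun i hi => ?_
      rw [Finset.mem_filter] at hi ⊢
      have := hmax i
      exact ⟨hi.1, by omega⟩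
    exact_mod_cast h4
  -- one large point
  set M := d + 1 - m i₀ with hM
  have haug : aug r d m = m i₀ ::ₘ ((univ.erase i₀).val.map m +
      Multiset.replicate ((d + r).choose r - ∑ i, ell r (m i)) 1) := by
    unfold aug
    rw [UPair_val m i₀, Multiset.cons_add]
  refine max_of_GM r k d hr0 m ?_
  rw [← aug_map, haug]
  refine h2 r hr2 M (m i₀) _ (by omega) (by omega) (by omega) ?_ ?_
  · intro x hx
    rcases Multiset.mem_add.1 hx with hx | hx
    · obtain ⟨i, hi, rfl⟩ := Multiset.mem_map.1 hx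
      have hi' : i ≠ i₀ := Finset.ne_of_mem_erase (show i ∈ univ.erase i₀ from hi)
      have := hp i i₀ hi'
      exact ⟨hm i, by omega⟩
    · rw [Multiset.eq_of_mem_replicate hx]
      exact ⟨le_rfl, by omega⟩
  · have h5 := le_tot_aug r d m
    rw [haug] at h5
    refine h5.trans (le_of_eq ?_)
    unfold tot
    rw [Multiset.map_cons, Multiset.sum_cons]

end Pool.Agent.H51.TB
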